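import Pool.Agent.P8H39.TI.Stm3
import Pool.Agent.P8H4.TI.Ha
import Pool.Agent.P8H59.TI.Finl

/-!
# Project TI, part NT (helper45)
-/

set_option autoImplicit false

namespace Pool.Agent.P8H45.TI

open Finset
open Pool.Agent.P8H39.TI

theorem ratio (ν κ : ℕ) (h : κ ≤ ν) : ∀ j, j ≤ κ →
    (ν - j).choose (κ - j) * ν ^ j ≤ κ ^ j * ν.choose κ := by
  intro j
  induction j with
  | zero =>
    intro _
    rw [Nat.sub_zero, Nat.sub_zero, pow_zero, pow_zero, mul_one, one_mul]
  | succ j ih =>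
    intro hj
    have h1 := ih (by omega)
    have h2 : (ν - j) * (ν - (j + 1)).choose (κ - (j + 1)) = (ν - j).choose (κ - j) * (κ - j) := by
      have := Nat.add_one_mul_choose_eq (ν - (j + 1)) (κ - (j + 1))
      rw [show ν - (j + 1) + 1 = ν - j by omega, show κ - (j + 1) + 1 = κ - j by omega] at this
      exact this
    have h3 : (κ - j) * ν ≤ κ * (ν - j) := by
      obtain ⟨a, rfl⟩ : ∃ a, κ = j + a := ⟨κ - j, by omega⟩
      obtain ⟨b, rfl⟩ : ∃ b, ν = j + a + b := ⟨ν - (j + a), by omega⟩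
      rw [Nat.add_sub_cancel_left, show j + a + b - j = a + b by omega]
      nlinarith [Nat.zero_le (j * b)]
    have h4 : 0 < ν - j := by omega
    refine le_of_mul_le_mul_left ?_ h4
    calc (ν - j) * ((ν - (j + 1)).choose (κ - (j + 1)) * ν ^ (j + 1))
        = ((ν - j) * (ν - (j + 1)).choose (κ - (j + 1))) * ν ^ j * ν := by ring
      _ = ((ν - j).choose (κ - j) * ν ^ j) * ((κ - j) * ν) := by rw [h2]; ring
      _ ≤ (κ ^ j * ν.choose κ) * (κ * (ν - j)) := Nat.mul_le_mul h1 h3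
      _ = (ν - j) * (κ ^ (j + 1) * ν.choose κ) := by ring

theorem geo6 (a : ℕ → ℕ) (D : ℕ) (m : ℕ) (h : ∀ j ∈ Icc 1 m, a j * 6 ^ j ≤ D) :
    5 * ∑ j ∈ Icc 1 m, a j ≤ D := by
  have h1 : ∀ m : ℕ, ∑ j ∈ Icc 1 m, (1 / 6 : ℝ) ^ j = (1 - (1 / 6) ^ m) / 5 := by
    intro m
    induction m with
    | zero => simp
    | succ m ih =>
      rw [Finset.sum_Icc_succ_top (by omega), ih, pow_succ]
      ring
  have h2 : ∑ j ∈ Icc 1 m, (a j : ℝ) ≤ ∑ j ∈ Icc 1 m, (D : ℝ) * (1 / 6) ^ j := by
    refine sum_le_sum fun j hj => ?_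
    have h3 : (a j : ℝ) * 6 ^ j ≤ D := by exact_mod_cast h j hj
    rw [one_div, inv_pow, ← div_eq_mul_inv, le_div_iff₀ (by positivity)]
    exact h3
  rw [← mul_sum, h1] at h2
  have h4 : (5 : ℝ) * ∑ j ∈ Icc 1 m, (a j : ℝ) ≤ D := by
    have h5 : (0 : ℝ) ≤ (D : ℝ) * (1 / 6) ^ m := by positivity
    nlinarith
  exact_mod_cast h4

theorem t_NT (hC : S_CNT) (hPS : S_PS) : S_NT := by
  intro n k t F ht htk hn hF hall
  obtain ⟨κ, rfl⟩ : ∃ κ, k = t + κ := ⟨k - t, by omega⟩
  obtain ⟨ν, rfl⟩ : ∃ ν, n = t + ν := ⟨n - t, by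
    have : t ≤ n := le_trans (by rw [Nat.add_assoc]; exact Nat.le_add_right _ _) hn
    omega⟩
  rw [Nat.add_sub_cancel_left] at hn
  rw [Nat.add_sub_cancel_left, Nat.add_sub_cancel_left]
  have hκ : 2 ≤ κ := by omega
  have hν : 4 * (t + κ) * κ + 6 * t * κ ^ 3 ≤ ν := by omega
  have hν1 : 4 * (t + κ) * κ ≤ ν := by omega
  have hν2 : 6 * t * κ ^ 3 ≤ ν := by omega
  have hκν : 4 * κ ≤ ν := by nlinarith
  have hν0 : 0 < ν := by omega
  have hr1 := ratio ν κ (by omega) 1 (by omega)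
  rw [pow_one, pow_one] at hr1
  have hsup : ∀ S : Finset (Fin (t + ν)), S.card = t + 1 →
      ((slice (t + ν) (t + κ)).filter fun A => S ⊆ A).card = (ν - 1).choose (κ - 1) := by
    intro S hS
    rw [Pool.Agent.P8H4.TI.card_super (by omega), hS, show t + ν - (t + 1) = ν - 1 by omega]
    exact Nat.choose_symm_of_eq_add (by omega)
  by_cases h1 : TInt (t + κ) (t + 1) F
  · obtain ⟨S, -, hS⟩ := Finset.exists_subset_card_eq
      (s := (univ : Finset (Fin (t + ν)))) (n := t + 1) (by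
        rw [card_univ, Fintype.card_fin]; omega)
    have h2 := Pool.Agent.P8H59.TI.card_le hPS F S (by omega) (by omega) (by
      rw [show t + κ - (t + 1) + 1 = κ by omega]
      nlinarith) h1 hS
    have h3 : F.card ≤ (ν - 1).choose (κ - 1) := by
      rw [← hsup S hS]
      exact_mod_cast h2
    refine le_of_mul_le_mul_left ?_ hν0
    calc ν * (2 * F.card) ≤ ν * (2 * (ν - 1).choose (κ - 1)) := by gcongr
      _ = 2 * ((ν - 1).choose (κ - 1) * ν) := by ring
      _ ≤ 2 * (κ * ν.choose κ) := by gcongr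
      _ = (2 * κ) * ν.choose κ := by ring
      _ ≤ ν * ν.choose κ := Nat.mul_le_mul_right _ (by omega)
  · -- two members meeting in exactly `t` elements
    obtain ⟨A, hA, B, hB, hAB⟩ : ∃ A ∈ F, ∃ B ∈ F, (A ∩ B).card < t + 1 := by
      by_contra h0
      push Not at h0
      exact h1 ⟨hF.1, h0⟩
    obtain ⟨T, hT⟩ : ∃ T, T = A ∩ B := ⟨_, rfl⟩
    have hTc : T.card = t := by
      have := hF.2 A hA B hB
      rw [hT]
      omega
    obtain ⟨C, hCF, hTC⟩ := hall T hTc
    have hp1 : 4 * (F.filter fun E => T ⊆ E).card ≤ ν.choose κ := by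
      have h2 : F.filter (fun E => T ⊆ E) ⊆ (C \ T).biUnion fun c =>
          (slice (t + ν) (t + κ)).filter fun A => insert c T ⊆ A := by
        intro E hE
        rw [mem_filter] at hE
        obtain ⟨c, hcE, hcT⟩ : ∃ c ∈ E ∩ C, c ∉ T := by
          by_contra h0
          push Not at h0
          have h3 : E ∩ C ⊆ T ∩ C := fun c hc =>
            mem_inter.2 ⟨h0 c hc, (mem_inter.1 hc).2⟩
          have h4 := card_le_card h3
          have h5 : (T ∩ C).card < T.card := by
            refine card_lt_card ⟨inter_subset_left, fun h6 => hTC ?_⟩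
            exact fun c hc => (mem_inter.1 (h6 hc)).2
          have h6 := hF.2 E hE.1 C hCF
          omega
        rw [mem_biUnion]
        refine ⟨c, mem_sdiff.2 ⟨(mem_inter.1 hcE).2, hcT⟩, ?_⟩
        rw [mem_filter, mem_powersetCard]
        exact ⟨⟨subset_univ _, hF.1 E hE.1⟩, insert_subset (mem_inter.1 hcE).1 hE.2⟩
      have h3 : (F.filter fun E => T ⊆ E).card ≤ (t + κ) * (ν - 1).choose (κ - 1) := by
        refine (card_le_card h2).trans (card_biUnion_le.trans ?_)
        rw [sum_congr rfl fun c hc => hsup (insert c T) (by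
          rw [card_insert_of_notMem (mem_sdiff.1 hc).2, hTc]), sum_const, smul_eq_mul]
        refine Nat.mul_le_mul_right _ ?_
        rw [← hF.1 C hCF]
        exact card_le_card sdiff_subset
      refine le_of_mul_le_mul_left ?_ hν0
      calc ν * (4 * (F.filter fun E => T ⊆ E).card)
          ≤ ν * (4 * ((t + κ) * (ν - 1).choose (κ - 1))) := by gcongr
        _ = 4 * (t + κ) * ((ν - 1).choose (κ - 1) * ν) := by ring
        _ ≤ 4 * (t + κ) * (κ * ν.choose κ) := by gcongr
        _ = (4 * (t + κ) * κ) * ν.choose κ := by ring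
        _ ≤ ν * ν.choose κ := Nat.mul_le_mul_right _ hν1
    have hp2 : 5 * (F.filter fun E => ¬ T ⊆ E).card ≤ ν.choose κ := by
      have h2 : F.filter (fun E => ¬ T ⊆ E) ⊆ (slice (t + ν) (t + κ)).filter
          (fun E => ¬ T ⊆ E ∧ t ≤ (E ∩ A).card ∧ t ≤ (E ∩ B).card) := by
        intro E hE
        rw [mem_filter] at hE
        rw [mem_filter, mem_powersetCard]
        exact ⟨⟨subset_univ _, hF.1 E hE.1⟩, hE.2, hF.2 E hE.1 A hA, hF.2 E hE.1 B hB⟩
      have h3 := (card_le_card h2).trans (hC (t + ν) (t + κ) t A B T (by omega) (hF.1 A hA)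
        (hF.1 B hB) hT hTc)
      refine (Nat.mul_le_mul_left 5 h3).trans ?_
      rw [Nat.add_sub_cancel_left, Nat.add_sub_cancel_left]
      refine geo6 _ _ _ fun j hj => ?_
      rw [mem_Icc] at hj
      have h4 := ratio ν κ (by omega) j hj.2
      have h5 : 0 < ν ^ j := Nat.pow_pos hν0
      refine le_of_mul_le_mul_left ?_ h5
      calc ν ^ j * (t.choose j * κ.choose j ^ 2 * (ν - j).choose (κ - j) * 6 ^ j)
          = t.choose j * κ.choose j ^ 2 * ((ν - j).choose (κ - j) * ν ^ j) * 6 ^ j := by ring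
        _ ≤ t ^ j * (κ ^ j) ^ 2 * (κ ^ j * ν.choose κ) * 6 ^ j := by
            gcongr
            · exact Nat.choose_le_pow _ _
            · exact Nat.choose_le_pow _ _
        _ = (6 * t * κ ^ 3) ^ j * ν.choose κ := by
            rw [mul_pow, mul_pow, ← pow_mul, ← pow_mul]
            ring
        _ ≤ ν ^ j * ν.choose κ := by gcongr
    have h6 := Finset.card_filter_add_card_filter_not (s := F) (fun E => T ⊆ E)
    omega

end Pool.Agent.P8H45.TI
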