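import Pool.Agent.P8H39.TI.Stm3
import Pool.Agent.P8H4.TI.Ha

/-!
# Project TI, part SUM (helper45)
-/

set_option autoImplicit false

namespace Pool.Agent.P8H45.TI

open Finset
open Pool.Agent.P8H39.TI

theorem deg_star {n k : ℕ} (hk : k ≤ n) (T R : Finset (Fin n)) :
    deg (P8H39.TI.star k T) R = (n - (R ∪ T).card).choose (n - k) := by
  unfold deg P8H39.TI.star
  rw [filter_filter, ← Pool.Agent.P8H4.TI.card_super hk]
  congr 1
  refine filter_congr fun A _ => ?_
  rw [union_subset_iff, and_comm]

theorem step (ν κ t l : ℕ) (h : 2 * t * κ ^ 2 + κ ≤ ν) (hνκ : κ < ν) :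
    2 * (t * ν.choose (l + 1) * ((ν - (l + 1)).choose (ν - κ)) ^ 2) ≤
      ν.choose l * ((ν - l).choose (ν - κ)) ^ 2 := by
  rcases Nat.lt_or_ge l κ with hl | hl
  · have e1 : (ν - (l + 1)).choose (ν - κ) * (ν - l) = (ν - l).choose (ν - κ) * (κ - l) := by
      have := Nat.choose_mul_succ_eq (ν - (l + 1)) (ν - κ)
      rw [show ν - (l + 1) + 1 = ν - l by omega, show ν - l - (ν - κ) = κ - l by omega] at this
      exact this
    have e2 : ν.choose (l + 1) * (l + 1) = ν.choose l * (ν - l) := Nat.choose_succ_right_eq ν l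
    have hN : 0 < ν - l := by omega
    have h3 : 2 * t * (κ - l) ^ 2 ≤ (l + 1) * (ν - l) := by
      have h4 : 2 * t * (κ - l) ^ 2 ≤ 2 * t * κ ^ 2 :=
        Nat.mul_le_mul_left _ (Nat.pow_le_pow_left (Nat.sub_le κ l) 2)
      have h5 : ν - l ≤ (l + 1) * (ν - l) := Nat.le_mul_of_pos_left _ (Nat.succ_pos l)
      omega
    generalize ν.choose (l + 1) = c' at *
    generalize ν.choose l = c at *
    generalize (ν - (l + 1)).choose (ν - κ) = s' at *
    generalize (ν - l).choose (ν - κ) = s at *
    generalize κ - l = K at *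
    generalize ν - l = N at *
    have hpos : 0 < (l + 1) * N ^ 2 := Nat.mul_pos (Nat.succ_pos l) (Nat.pow_pos hN)
    refine le_of_mul_le_mul_left ?_ hpos
    calc (l + 1) * N ^ 2 * (2 * (t * c' * s' ^ 2)) = 2 * t * (c' * (l + 1)) * (s' * N) ^ 2 := by ring
      _ = 2 * t * (c * N) * (s * K) ^ 2 := by rw [e1, e2]
      _ = (c * N * s ^ 2) * (2 * t * K ^ 2) := by ring
      _ ≤ (c * N * s ^ 2) * ((l + 1) * N) := Nat.mul_le_mul_left _ h3
      _ = (l + 1) * N ^ 2 * (c * s ^ 2) := by ring
  · rw [Nat.choose_eq_zero_of_lt (n := ν - (l + 1)) (k := ν - κ) (by omega)]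
    simp

theorem geo (u : ℕ → ℕ) (h : ∀ i, 2 * u (i + 1) ≤ u i) (m : ℕ) :
    ∑ i ∈ range m, u i + 2 * u m ≤ 2 * u 0 := by
  induction m with
  | zero => simp
  | succ m ih =>
    rw [sum_range_succ]
    have := h m
    omega

theorem card_split {n r t i a : ℕ} (T : Finset (Fin n)) (hT : T.card = t) (ha : r = t + a) :
    ((slice n r).filter fun R => (T \ R).card = i).card ≤
      t.choose i * (n - t).choose (a + i) := by
  have h1 : (powersetCard i T ×ˢ powersetCard (a + i) Tᶜ).card =
      t.choose i * (n - t).choose (a + i) := by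
    rw [card_product, card_powersetCard, card_powersetCard, card_compl, Fintype.card_fin, hT]
  rw [← h1]
  refine card_le_card_of_injOn (fun R => (T \ R, R \ T)) ?_ ?_
  · intro R hR
    rw [mem_coe, mem_filter, mem_powersetCard] at hR
    rw [mem_coe, mem_product, mem_powersetCard, mem_powersetCard]
    refine ⟨⟨sdiff_subset, hR.2⟩, ?_, ?_⟩
    · intro x hx
      rw [mem_compl]
      exact (mem_sdiff.1 hx).2
    · change (R \ T).card = a + i
      have h2 : (R \ T).card + T.card = (R ∪ T).card := card_sdiff_add_card R T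
      have h3 : (T \ R).card + R.card = (T ∪ R).card := card_sdiff_add_card T R
      rw [union_comm] at h3
      have h4 := hR.1.2
      have h5 := hR.2
      omega
  · intro R hR R' hR' h
    have h2 : T \ R = T \ R' := congrArg Prod.fst h
    have h3 : R \ T = R' \ T := congrArg Prod.snd h
    ext x
    have h4 := Finset.ext_iff.1 h2 x
    have h5 := Finset.ext_iff.1 h3 x
    simp only [mem_sdiff] at h4 h5
    tauto

theorem t_SUM : S_SUM := by
  intro n k t r T ht htr hrk hT hn
  obtain ⟨a, rfl⟩ : ∃ a, r = t + a := ⟨r - t, by omega⟩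
  have hkn : k ≤ n := by omega
  have hsa : (n - (t + a)).choose (k - (t + a)) = (n - (t + a)).choose (n - k) :=
    Nat.choose_symm_of_eq_add (by omega)
  refine ⟨?_, fun p hp => ?_⟩
  · rw [hsa]
    have key : ∑ R ∈ slice n (t + a), deg (P8H39.TI.star k T) R ^ 2 ≤
        2 * ((n - t).choose (t + a - t) * ((n - (t + a)).choose (n - k)) ^ 2) := by
      rw [← sum_fiberwise_of_maps_to (s := slice n (t + a)) (t := range (t + 1))
        (g := fun R => (T \ R).card) (fun R _ => by
          rw [mem_range, ← hT]
          exact Nat.lt_succ_of_le (card_le_card sdiff_subset))]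
      obtain ⟨u, hu⟩ : ∃ u : ℕ → ℕ, u = fun i => t ^ i * (n - t).choose (a + i) *
        ((n - t - (a + i)).choose (n - k)) ^ 2 := ⟨_, rfl⟩
      have h1 : ∀ i ∈ range (t + 1), ∑ R ∈ slice n (t + a) with (T \ R).card = i,
          deg (P8H39.TI.star k T) R ^ 2 ≤ u i := by
        intro i _
        have h2 : ∀ R ∈ (slice n (t + a)).filter (fun R => (T \ R).card = i),
            deg (P8H39.TI.star k T) R ^ 2 = ((n - t - (a + i)).choose (n - k)) ^ 2 := by
          intro R hR
          rw [mem_filter, mem_powersetCard] at hR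
          rw [deg_star hkn]
          have h3 : (T \ R).card + R.card = (T ∪ R).card := card_sdiff_add_card T R
          rw [union_comm] at h3
          rw [← h3, hR.1.2, hR.2, show n - (i + (t + a)) = n - t - (a + i) by omega]
        rw [sum_congr rfl h2, sum_const, smul_eq_mul, hu]
        refine Nat.mul_le_mul_right _ ((card_split T hT rfl).trans ?_)
        exact Nat.mul_le_mul_right _ (Nat.choose_le_pow _ _)
      refine (sum_le_sum h1).trans ?_
      have h3 := geo u (fun i => ?_) (t + 1)
      · refine (Nat.le_add_right _ _).trans (h3.trans (le_of_eq ?_))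
        rw [hu]
        simp only [pow_zero, one_mul, add_zero]
        rw [show t + a - t = a by omega, show n - t - a = n - (t + a) by omega]
      · rw [hu]
        have h4 := step (n - t) (k - t) t (a + i) (by omega) ?_
        · rw [show n - t - (k - t) = n - k by omega] at h4
          calc 2 * (t ^ (i + 1) * (n - t).choose (a + (i + 1)) *
                ((n - t - (a + (i + 1))).choose (n - k)) ^ 2)
              = t ^ i * (2 * (t * (n - t).choose (a + i + 1) *
                ((n - t - (a + i + 1)).choose (n - k)) ^ 2)) := by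
                rw [← add_assoc, pow_succ]
                ring
            _ ≤ t ^ i * ((n - t).choose (a + i) * ((n - t - (a + i)).choose (n - k)) ^ 2) :=
                Nat.mul_le_mul_left _ h4
            _ = _ := by ring
        · omega
    have h5 : ((∑ R ∈ slice n (t + a), deg (P8H39.TI.star k T) R ^ 2 : ℕ) : ℝ) ≤
        ((2 * ((n - t).choose (t + a - t) * ((n - (t + a)).choose (n - k)) ^ 2) : ℕ) : ℝ) := by
      exact_mod_cast key
    push_cast at h5
    rw [← mul_assoc] at h5
    exact h5
  · rw [hsa]
    have h1 : ((slice n (t + a)).filter fun R => T ⊆ R).card = (n - t).choose (t + a - t) := by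
      rw [Pool.Agent.P8H4.TI.card_super (by omega), hT]
      exact Nat.choose_symm_of_eq_add (by omega)
    have h2 : ∑ R ∈ (slice n (t + a)).filter (fun R => T ⊆ R), (deg (P8H39.TI.star k T) R : ℝ) ^ p =
        ((n - t).choose (t + a - t) : ℝ) * ((n - (t + a)).choose (n - k) : ℝ) ^ p := by
      rw [← h1, ← nsmul_eq_mul, ← sum_const]
      refine sum_congr rfl fun R hR => ?_
      rw [mem_filter, mem_powersetCard] at hR
      rw [deg_star hkn, union_eq_left.2 hR.2, hR.1.2]
    rw [← h2]
    unfold ell
    refine sum_le_sum_of_subset_of_nonneg (filter_subset _ _) fun R _ _ => ?_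
    positivity

end Pool.Agent.P8H45.TI
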