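import Pool.Agent.P8H39.TI.Stm5

set_option autoImplicit false

/-!
# Project TI, fifth part, package FIN5 (helper45)
-/

namespace Pool.Agent.P8H45.TI

open Pool.Agent.P8H39.TI

theorem t_FIN5 (hF4 : S_FIN4) (hT5 : S_TH5) (hP : S_PW) : S_FIN5 := by
  refine ⟨?_, hF4.2⟩
  intro n k t r p F T ht hk hr hrk hn hF hT hp hc
  rcases hc with h | h | h | ⟨hr1, ht2, hk3, h⟩
  · exact hF4.1 n k t r p F T ht hk hr hrk hn hF hT hp (Or.inl h)
  · exact hF4.1 n k t r p F T ht hk hr hrk hn hF hT hp (Or.inr (Or.inl h))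
  · exact hF4.1 n k t r p F T ht hk hr hrk hn hF hT hp (Or.inr (Or.inr h))
  · subst hr1
    unfold ell
    exact hP n (slice n (t + 1)) (fun R => (deg F R : ℝ)) (fun R => (deg (star k T) R : ℝ)) p hp
      (fun R _ => Nat.cast_nonneg _) (fun R _ => Nat.cast_nonneg _)
      (fun c hc => hT5 n k t c F T ht2 hk3 hn h hF hT hc)

end Pool.Agent.P8H45.TI
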